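import Pool.Agent.Lib.MP_89fcdb_gt.Interfaces

/-!
# MP_89fcdb_gt, module TP: the part `u₁ ≠ -1` of `P` is `S³ × ℝ⁵` (helper41)
-/

open scoped BigOperators ComplexConjugate
open Set Topology Pool.Agent.Lib.MP_904b2a_gt

namespace Pool.Agent.Lib.MP_89fcdb_gt.H41

noncomputable section

/-! ## Stereographic coordinates on the sphere of `ℂ³` -/

/-- The squared norm on `ℝ⁵`. -/
def nn (t : Fin 5 → ℝ) : ℝ := t 0 ^ 2 + t 1 ^ 2 + t 2 ^ 2 + t 3 ^ 2 + t 4 ^ 2

theorem nn_nonneg (t : Fin 5 → ℝ) : 0 ≤ nn t := by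
  unfold nn
  positivity

theorem nn_pos (t : Fin 5 → ℝ) : 0 < 1 + nn t := by
  have := nn_nonneg t
  linarith

theorem nn_ne (t : Fin 5 → ℝ) : 1 + nn t ≠ 0 := (nn_pos t).ne'

@[fun_prop]
theorem continuous_nn : Continuous nn := by
  unfold nn
  fun_prop

theorem nn_zero : nn 0 = 0 := by simp [nn]

theorem eq_zero_of_nn {t : Fin 5 → ℝ} (h : nn t = 0) : t = 0 := by
  unfold nn at h
  have h0 := sq_nonneg (t 0)
  have h1 := sq_nonneg (t 1)
  have h2 := sq_nonneg (t 2)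
  have h3 := sq_nonneg (t 3)
  have h4 := sq_nonneg (t 4)
  funext i
  fin_cases i
  · exact pow_eq_zero_iff (two_ne_zero) |>.mp (by linarith : t 0 ^ 2 = 0)
  · exact pow_eq_zero_iff (two_ne_zero) |>.mp (by linarith : t 1 ^ 2 = 0)
  · exact pow_eq_zero_iff (two_ne_zero) |>.mp (by linarith : t 2 ^ 2 = 0)
  · exact pow_eq_zero_iff (two_ne_zero) |>.mp (by linarith : t 3 ^ 2 = 0)
  · exact pow_eq_zero_iff (two_ne_zero) |>.mp (by linarith : t 4 ^ 2 = 0)

/-- A complex number given by its real and imaginary parts, as a continuous function. -/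
def cx (a b : ℝ) : ℂ := (a : ℂ) + (b : ℂ) * Complex.I

@[simp] theorem cx_re (a b : ℝ) : (cx a b).re = a := by simp [cx]

@[simp] theorem cx_im (a b : ℝ) : (cx a b).im = b := by simp [cx]

theorem cx_eta (z : ℂ) : cx z.re z.im = z := by
  apply Complex.ext <;> simp

theorem continuous_cx {X : Type} [TopologicalSpace X] {f g : X → ℝ} (hf : Continuous f)
    (hg : Continuous g) : Continuous fun x => cx (f x) (g x) := by
  unfold cx
  fun_prop

/-- The inverse of the stereographic projection. -/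
def uu (t : Fin 5 → ℝ) : ℂ × ℂ × ℂ :=
  (cx ((1 - nn t) * (1 + nn t)⁻¹) (2 * t 0 * (1 + nn t)⁻¹),
    cx (2 * t 1 * (1 + nn t)⁻¹) (2 * t 2 * (1 + nn t)⁻¹),
    cx (2 * t 3 * (1 + nn t)⁻¹) (2 * t 4 * (1 + nn t)⁻¹))

theorem continuous_inv_nn : Continuous fun t : Fin 5 → ℝ => (1 + nn t)⁻¹ :=
  Continuous.inv₀ (by fun_prop) nn_ne

theorem continuous_uu : Continuous uu := by
  have h := continuous_inv_nn
  unfold uu
  refine Continuous.prodMk (continuous_cx ?_ ?_) (Continuous.prodMk (continuous_cx ?_ ?_)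
    (continuous_cx ?_ ?_)) <;> fun_prop

theorem n3_uu (t : Fin 5 → ℝ) : n3 (uu t) = 1 := by
  have h := nn_ne t
  unfold n3 uu
  simp only [Complex.normSq_apply, cx_re, cx_im]
  have h2 : nn t = t 0 ^ 2 + t 1 ^ 2 + t 2 ^ 2 + t 3 ^ 2 + t 4 ^ 2 := rfl
  have h3 : (1 + nn t) * (1 + nn t)⁻¹ = 1 := mul_inv_cancel₀ h
  have h4 : ((1 - nn t) ^ 2 + 4 * nn t) * (1 + nn t)⁻¹ ^ 2 = 1 := by
    calc ((1 - nn t) ^ 2 + 4 * nn t) * (1 + nn t)⁻¹ ^ 2
        = ((1 + nn t) * (1 + nn t)⁻¹) ^ 2 := by ring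
      _ = 1 := by rw [h3]; norm_num
  have h5 : 4 * nn t * (1 + nn t)⁻¹ ^ 2 =
      4 * (t 0 ^ 2 + t 1 ^ 2 + t 2 ^ 2 + t 3 ^ 2 + t 4 ^ 2) * (1 + nn t)⁻¹ ^ 2 := by rw [← h2]
  linear_combination h4 - h5

theorem uu_re (t : Fin 5 → ℝ) : (uu t).1.re = (1 - nn t) * (1 + nn t)⁻¹ := cx_re _ _

theorem one_add_re (t : Fin 5 → ℝ) : 1 + (uu t).1.re = 2 * (1 + nn t)⁻¹ := by
  rw [uu_re]
  have h3 : (1 + nn t) * (1 + nn t)⁻¹ = 1 := mul_inv_cancel₀ (nn_ne t)
  linear_combination -h3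

theorem one_add_re_pos (t : Fin 5 → ℝ) : 0 < 1 + (uu t).1.re := by
  rw [one_add_re]
  have := nn_pos t
  positivity

theorem uu_ne (t : Fin 5 → ℝ) : (uu t).1 ≠ -1 := by
  intro h
  have := one_add_re_pos t
  rw [h] at this
  simp at this

/-- The stereographic projection from `-e₁`. -/
def tt (u : ℂ × ℂ × ℂ) : Fin 5 → ℝ :=
  ![u.1.im * (1 + u.1.re)⁻¹, u.2.1.re * (1 + u.1.re)⁻¹, u.2.1.im * (1 + u.1.re)⁻¹,
    u.2.2.re * (1 + u.1.re)⁻¹, u.2.2.im * (1 + u.1.re)⁻¹]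

theorem tt_uu (t : Fin 5 → ℝ) : tt (uu t) = t := by
  have h1 := one_add_re t
  have h3 : (1 + nn t) * (1 + nn t)⁻¹ = 1 := mul_inv_cancel₀ (nn_ne t)
  have h4 : (1 + (uu t).1.re)⁻¹ = (1 + nn t) / 2 := by
    rw [h1]
    field_simp
  funext i
  fin_cases i
  · show (uu t).1.im * (1 + (uu t).1.re)⁻¹ = t 0
    rw [h4]
    have : (uu t).1.im = 2 * t 0 * (1 + nn t)⁻¹ := cx_im _ _
    rw [this]
    linear_combination t 0 * h3
  · show (uu t).2.1.re * (1 + (uu t).1.re)⁻¹ = t 1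
    rw [h4]
    have : (uu t).2.1.re = 2 * t 1 * (1 + nn t)⁻¹ := cx_re _ _
    rw [this]
    linear_combination t 1 * h3
  · show (uu t).2.1.im * (1 + (uu t).1.re)⁻¹ = t 2
    rw [h4]
    have : (uu t).2.1.im = 2 * t 2 * (1 + nn t)⁻¹ := cx_im _ _
    rw [this]
    linear_combination t 2 * h3
  · show (uu t).2.2.re * (1 + (uu t).1.re)⁻¹ = t 3
    rw [h4]
    have : (uu t).2.2.re = 2 * t 3 * (1 + nn t)⁻¹ := cx_re _ _
    rw [this]
    linear_combination t 3 * h3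
  · show (uu t).2.2.im * (1 + (uu t).1.re)⁻¹ = t 4
    rw [h4]
    have : (uu t).2.2.im = 2 * t 4 * (1 + nn t)⁻¹ := cx_im _ _
    rw [this]
    linear_combination t 4 * h3

theorem re_ne_of_ne {u : ℂ × ℂ × ℂ} (h : n3 u = 1) (hu : u.1 ≠ -1) : 1 + u.1.re ≠ 0 := by
  intro h0
  apply hu
  have h1 : u.1.re = -1 := by linarith
  unfold n3 at h
  simp only [Complex.normSq_apply] at h
  have h2 : u.1.im = 0 := by
    have ha := mul_self_nonneg u.2.1.re
    have hb := mul_self_nonneg u.2.1.im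
    have hc := mul_self_nonneg u.2.2.re
    have hd := mul_self_nonneg u.2.2.im
    have he := mul_self_nonneg u.1.im
    rw [h1] at h
    exact mul_self_eq_zero.mp (by linarith)
  apply Complex.ext <;> simp [h1, h2]

theorem uu_tt {u : ℂ × ℂ × ℂ} (h : n3 u = 1) (hu : u.1 ≠ -1) : uu (tt u) = u := by
  have h1 := re_ne_of_ne h hu
  set c := (1 + u.1.re)⁻¹ with hc
  have hc1 : (1 + u.1.re) * c = 1 := mul_inv_cancel₀ h1
  have hn : nn (tt u) = (1 - u.1.re) * c := by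
    have : nn (tt u) = (u.1.im * c) ^ 2 + (u.2.1.re * c) ^ 2 + (u.2.1.im * c) ^ 2 +
        (u.2.2.re * c) ^ 2 + (u.2.2.im * c) ^ 2 := rfl
    rw [this]
    unfold n3 at h
    simp only [Complex.normSq_apply] at h
    have h2 : (1 - u.1.re) * c = (1 - u.1.re ^ 2) * c ^ 2 := by
      linear_combination (-(1 - u.1.re) * c) * hc1
    rw [h2]
    linear_combination c ^ 2 * h
  have h1n : 1 + nn (tt u) = 2 * c := by
    rw [hn]
    linear_combination -hc1
  have hinv : (1 + nn (tt u))⁻¹ = (1 + u.1.re) / 2 := by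
    rw [h1n, hc]
    field_simp
  have hcomp : ∀ x : ℝ, 2 * (x * c) * (1 + nn (tt u))⁻¹ = x := by
    intro x
    rw [hinv]
    linear_combination x * hc1
  refine Prod.ext ?_ (Prod.ext ?_ ?_)
  · show cx ((1 - nn (tt u)) * (1 + nn (tt u))⁻¹) (2 * (tt u 0) * (1 + nn (tt u))⁻¹) = u.1
    have ha : (1 - nn (tt u)) * (1 + nn (tt u))⁻¹ = u.1.re := by
      rw [hinv, hn]
      linear_combination (-(1 - u.1.re) / 2) * hc1
    rw [ha]
    have hb : 2 * (tt u 0) * (1 + nn (tt u))⁻¹ = u.1.im := hcomp _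
    rw [hb]
    exact cx_eta _
  · show cx (2 * (tt u 1) * (1 + nn (tt u))⁻¹) (2 * (tt u 2) * (1 + nn (tt u))⁻¹) = u.2.1
    have ha : 2 * (tt u 1) * (1 + nn (tt u))⁻¹ = u.2.1.re := hcomp _
    have hb : 2 * (tt u 2) * (1 + nn (tt u))⁻¹ = u.2.1.im := hcomp _
    rw [ha, hb]
    exact cx_eta _
  · show cx (2 * (tt u 3) * (1 + nn (tt u))⁻¹) (2 * (tt u 4) * (1 + nn (tt u))⁻¹) = u.2.2
    have ha : 2 * (tt u 3) * (1 + nn (tt u))⁻¹ = u.2.2.re := hcomp _
    have hb : 2 * (tt u 4) * (1 + nn (tt u))⁻¹ = u.2.2.im := hcomp _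
    rw [ha, hb]
    exact cx_eta _

theorem uu_zero : uu 0 = (1, 0, 0) := by
  refine Prod.ext ?_ (Prod.ext ?_ ?_) <;> apply Complex.ext <;> simp [uu, nn_zero]

/-! ## The trivialisation of the second vector -/

/-- The auxiliary coefficient. -/
def kk (u : ℂ × ℂ × ℂ) (w : ℂ × ℂ) : ℂ :=
  (conj u.2.1 * w.1 + conj u.2.2 * w.2) * (1 + conj u.1)⁻¹

/-- The second vector. -/
def vv (u : ℂ × ℂ × ℂ) (w : ℂ × ℂ) : ℂ × ℂ × ℂ :=
  (-((1 + u.1) * kk u w), w.1 - u.2.1 * kk u w, w.2 - u.2.2 * kk u w)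

/-- The inverse. -/
def ww (u v : ℂ × ℂ × ℂ) : ℂ × ℂ :=
  (v.2.1 - u.2.1 * (v.1 * (1 + u.1)⁻¹), v.2.2 - u.2.2 * (v.1 * (1 + u.1)⁻¹))

theorem one_add_ne {z : ℂ} (h : z ≠ -1) : 1 + z ≠ 0 := by
  intro h0
  exact h (by linear_combination h0)

theorem conj_one_add_ne {z : ℂ} (h : z ≠ -1) : 1 + conj z ≠ 0 := by
  intro h0
  apply one_add_ne h
  have := congrArg conj h0
  simpa using this

theorem n3_cast (u : ℂ × ℂ × ℂ) : ((n3 u : ℝ) : ℂ) =
    u.1 * conj u.1 + u.2.1 * conj u.2.1 + u.2.2 * conj u.2.2 := by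
  unfold n3
  push_cast
  rw [Complex.mul_conj, Complex.mul_conj, Complex.mul_conj]

theorem kk_mul {u : ℂ × ℂ × ℂ} (hu : u.1 ≠ -1) (w : ℂ × ℂ) :
    kk u w * (1 + conj u.1) = conj u.2.1 * w.1 + conj u.2.2 * w.2 := by
  unfold kk
  rw [mul_assoc, inv_mul_cancel₀ (conj_one_add_ne hu), mul_one]

theorem h3_vv {u : ℂ × ℂ × ℂ} (h : n3 u = 1) (hu : u.1 ≠ -1) (w : ℂ × ℂ) :
    h3 u (vv u w) = 0 := by
  have hk := kk_mul hu w
  have hn := n3_cast u
  rw [h] at hn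
  push_cast at hn
  show conj u.1 * -((1 + u.1) * kk u w) + conj u.2.1 * (w.1 - u.2.1 * kk u w) +
    conj u.2.2 * (w.2 - u.2.2 * kk u w) = 0
  linear_combination kk u w * hn - hk

theorem n3_vv {u : ℂ × ℂ × ℂ} (h : n3 u = 1) (hu : u.1 ≠ -1) {w : ℂ × ℂ}
    (hw : Complex.normSq w.1 + Complex.normSq w.2 = 1) : n3 (vv u w) = 1 := by
  have hk := kk_mul hu w
  have hk' := congrArg conj hk
  simp only [map_mul, map_add, map_one, Complex.conj_conj] at hk'
  have hn := n3_cast u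
  rw [h] at hn
  push_cast at hn
  have hw' : w.1 * conj w.1 + w.2 * conj w.2 = 1 := by
    rw [Complex.mul_conj, Complex.mul_conj]
    exact_mod_cast hw
  have key : ((n3 (vv u w) : ℝ) : ℂ) = 1 := by
    rw [n3_cast]
    show -((1 + u.1) * kk u w) * conj (-((1 + u.1) * kk u w)) +
      (w.1 - u.2.1 * kk u w) * conj (w.1 - u.2.1 * kk u w) +
      (w.2 - u.2.2 * kk u w) * conj (w.2 - u.2.2 * kk u w) = 1
    simp only [map_neg, map_mul, map_add, map_one, map_sub]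
    linear_combination (-(kk u w * conj (kk u w))) * hn + hw' + conj (kk u w) * hk +
      kk u w * hk'
  exact_mod_cast key

theorem ww_vv {u : ℂ × ℂ × ℂ} (hu : u.1 ≠ -1) (w : ℂ × ℂ) : ww u (vv u w) = w := by
  have h1 : (vv u w).1 * (1 + u.1)⁻¹ = -kk u w := by
    show -((1 + u.1) * kk u w) * (1 + u.1)⁻¹ = -kk u w
    have := mul_inv_cancel₀ (one_add_ne hu)
    linear_combination (-kk u w) * this
  unfold ww
  rw [h1]
  refine Prod.ext ?_ ?_
  · show (w.1 - u.2.1 * kk u w) - u.2.1 * -kk u w = w.1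
    ring
  · show (w.2 - u.2.2 * kk u w) - u.2.2 * -kk u w = w.2
    ring

theorem kk_ww {u v : ℂ × ℂ × ℂ} (h : n3 u = 1) (hu : u.1 ≠ -1) (hv : h3 u v = 0) :
    kk u (ww u v) = -(v.1 * (1 + u.1)⁻¹) := by
  have h1 := mul_inv_cancel₀ (one_add_ne hu)
  have hn := n3_cast u
  rw [h] at hn
  push_cast at hn
  have hv' : conj u.1 * v.1 + conj u.2.1 * v.2.1 + conj u.2.2 * v.2.2 = 0 := hv
  have key : conj u.2.1 * (ww u v).1 + conj u.2.2 * (ww u v).2 =
      -(v.1 * (1 + u.1)⁻¹) * (1 + conj u.1) := by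
    show conj u.2.1 * (v.2.1 - u.2.1 * (v.1 * (1 + u.1)⁻¹)) +
      conj u.2.2 * (v.2.2 - u.2.2 * (v.1 * (1 + u.1)⁻¹)) =
      -(v.1 * (1 + u.1)⁻¹) * (1 + conj u.1)
    linear_combination hv' + (v.1 * (1 + u.1)⁻¹) * hn + (v.1 * conj u.1) * h1
  unfold kk
  rw [key, mul_assoc, mul_inv_cancel₀ (conj_one_add_ne hu), mul_one]

theorem vv_ww {u v : ℂ × ℂ × ℂ} (h : n3 u = 1) (hu : u.1 ≠ -1) (hv : h3 u v = 0) :
    vv u (ww u v) = v := by
  have h1 := mul_inv_cancel₀ (one_add_ne hu)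
  have hk := kk_ww h hu hv
  unfold vv
  rw [hk]
  refine Prod.ext ?_ (Prod.ext ?_ ?_)
  · show -((1 + u.1) * -(v.1 * (1 + u.1)⁻¹)) = v.1
    linear_combination v.1 * h1
  · show v.2.1 - u.2.1 * (v.1 * (1 + u.1)⁻¹) - u.2.1 * -(v.1 * (1 + u.1)⁻¹) = v.2.1
    ring
  · show v.2.2 - u.2.2 * (v.1 * (1 + u.1)⁻¹) - u.2.2 * -(v.1 * (1 + u.1)⁻¹) = v.2.2
    ring

theorem ww_norm {u v : ℂ × ℂ × ℂ} (h : n3 u = 1) (hu : u.1 ≠ -1) (hv : h3 u v = 0)
    (hv1 : n3 v = 1) :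
    Complex.normSq (ww u v).1 + Complex.normSq (ww u v).2 = 1 := by
  have h1 := mul_inv_cancel₀ (one_add_ne hu)
  have hn := n3_cast u
  rw [h] at hn
  push_cast at hn
  have hn2 := n3_cast v
  rw [hv1] at hn2
  push_cast at hn2
  have hv' : conj u.1 * v.1 + conj u.2.1 * v.2.1 + conj u.2.2 * v.2.2 = 0 := hv
  have hv2 := congrArg conj hv'
  simp only [map_mul, map_add, Complex.conj_conj, map_zero] at hv2
  set k : ℂ := v.1 * (1 + u.1)⁻¹ with hkdef
  have hk : k * (1 + u.1) = v.1 := by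
    rw [hkdef]
    linear_combination v.1 * h1
  have hk' := congrArg conj hk
  simp only [map_mul, map_add, map_one] at hk'
  have key : ((Complex.normSq (ww u v).1 + Complex.normSq (ww u v).2 : ℝ) : ℂ) = 1 := by
    push_cast
    rw [← Complex.mul_conj, ← Complex.mul_conj]
    show (v.2.1 - u.2.1 * k) * conj (v.2.1 - u.2.1 * k) +
      (v.2.2 - u.2.2 * k) * conj (v.2.2 - u.2.2 * k) = 1
    simp only [map_sub, map_mul]
    linear_combination -hn2 - (k * conj k) * hn - conj k * hv' - k * hv2 +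
      (conj v.1 - conj k * conj u.1) * hk + k * hk'
  exact_mod_cast key

/-! ## The trivialisation -/

/-- The part of `P` over `u₁ ≠ -1`. -/
abbrev PU : Type := {p : P // p.1.1.1 ≠ -1}

theorem continuous_kk {X : Type} [TopologicalSpace X] {u : X → ℂ × ℂ × ℂ} {w : X → ℂ × ℂ}
    (hu : Continuous u) (hw : Continuous w) (h : ∀ x, (u x).1 ≠ -1) :
    Continuous fun x => kk (u x) (w x) := by
  unfold kk
  refine Continuous.mul (by fun_prop) (Continuous.inv₀ (by fun_prop) fun x =>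
    conj_one_add_ne (h x))

theorem continuous_vv {X : Type} [TopologicalSpace X] {u : X → ℂ × ℂ × ℂ} {w : X → ℂ × ℂ}
    (hu : Continuous u) (hw : Continuous w) (h : ∀ x, (u x).1 ≠ -1) :
    Continuous fun x => vv (u x) (w x) := by
  have hk := continuous_kk hu hw h
  unfold vv
  fun_prop

theorem continuous_ww {X : Type} [TopologicalSpace X] {u v : X → ℂ × ℂ × ℂ}
    (hu : Continuous u) (hv : Continuous v) (h : ∀ x, (u x).1 ≠ -1) :
    Continuous fun x => ww (u x) (v x) := by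
  have hk : Continuous fun x => (1 + (u x).1)⁻¹ :=
    Continuous.inv₀ (by fun_prop) fun x => one_add_ne (h x)
  unfold ww
  fun_prop

theorem continuous_tt {X : Type} [TopologicalSpace X] {u : X → ℂ × ℂ × ℂ}
    (hu : Continuous u) (h : ∀ x, 1 + (u x).1.re ≠ 0) : Continuous fun x => tt (u x) := by
  have hk : Continuous fun x => (1 + (u x).1.re)⁻¹ :=
    Continuous.inv₀ (by fun_prop) fun x => h x
  refine continuous_pi fun i => ?_
  fin_cases i
  · show Continuous fun x => (u x).1.im * (1 + (u x).1.re)⁻¹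
    fun_prop
  · show Continuous fun x => (u x).2.1.re * (1 + (u x).1.re)⁻¹
    fun_prop
  · show Continuous fun x => (u x).2.1.im * (1 + (u x).1.re)⁻¹
    fun_prop
  · show Continuous fun x => (u x).2.2.re * (1 + (u x).1.re)⁻¹
    fun_prop
  · show Continuous fun x => (u x).2.2.im * (1 + (u x).1.re)⁻¹
    fun_prop

/-- The homeomorphism. -/
def homeo : S3 × (Fin 5 → ℝ) ≃ₜ PU where
  toFun x := ⟨⟨(uu x.2, vv (uu x.2) x.1.1), n3_uu _, n3_vv (n3_uu _) (uu_ne _) x.1.2,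
    h3_vv (n3_uu _) (uu_ne _) _⟩, uu_ne _⟩
  invFun p := (⟨ww p.1.1.1 p.1.1.2, ww_norm p.1.2.1 p.2 p.1.2.2.2 p.1.2.2.1⟩, tt p.1.1.1)
  left_inv x := by
    refine Prod.ext (Subtype.ext ?_) ?_
    · exact ww_vv (uu_ne _) _
    · exact tt_uu _
  right_inv p := by
    refine Subtype.ext (Subtype.ext (Prod.ext ?_ ?_))
    · exact uu_tt p.1.2.1 p.2
    · show vv (uu (tt p.1.1.1)) (ww p.1.1.1 p.1.1.2) = p.1.1.2
      rw [uu_tt p.1.2.1 p.2]
      exact vv_ww p.1.2.1 p.2 p.1.2.2.2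
  continuous_toFun := by
    have h1 : Continuous fun x : S3 × (Fin 5 → ℝ) => uu x.2 := continuous_uu.comp continuous_snd
    have h2 : Continuous fun x : S3 × (Fin 5 → ℝ) => vv (uu x.2) x.1.1 :=
      continuous_vv h1 (by fun_prop) fun x => uu_ne _
    exact Continuous.subtype_mk (Continuous.subtype_mk (h1.prodMk h2) _) _
  continuous_invFun := by
    have h1 : Continuous fun p : PU => ww p.1.1.1 p.1.1.2 :=
      continuous_ww (by fun_prop) (by fun_prop) fun p => p.2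
    have h2 : Continuous fun p : PU => tt p.1.1.1 :=
      continuous_tt (by fun_prop) fun p => re_ne_of_ne p.1.2.1 p.2
    exact (Continuous.subtype_mk h1 _).prodMk h2

theorem isOpen_PU : IsOpen {p : P | p.1.1.1 ≠ -1} :=
  isOpen_ne_fun (by fun_prop) continuous_const

/-- The trivialisation. -/
def jj : C(S3 × (Fin 5 → ℝ), P) := ⟨fun x => (homeo x).1,
  continuous_subtype_val.comp homeo.continuous⟩

theorem trivP : TrivPStatement := by
  refine ⟨jj, ?_, ?_, ?_, ?_, ?_, ?_⟩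
  · exact (isOpen_PU.isOpenEmbedding_subtypeVal).comp homeo.isOpenEmbedding
  · ext p
    constructor
    · rintro ⟨x, rfl⟩
      exact (homeo x).2
    · intro hp
      refine ⟨homeo.symm ⟨p, hp⟩, ?_⟩
      show (homeo (homeo.symm ⟨p, hp⟩)).1 = p
      rw [homeo.apply_symm_apply]
  · intro w t
    refine Subtype.ext (Prod.ext rfl ?_)
    show vv (uu t) (-w.1) = -vv (uu t) w.1
    have hk : kk (uu t) (-w.1) = -kk (uu t) w.1 := by
      unfold kk
      simp only [Prod.fst_neg, Prod.snd_neg]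
      ring
    unfold vv
    rw [hk]
    refine Prod.ext ?_ (Prod.ext ?_ ?_)
    · simp only [Prod.fst_neg]
      ring
    · simp only [Prod.fst_neg, Prod.snd_neg]
      ring
    · simp only [Prod.snd_neg]
      ring
  · intro w
    refine Subtype.ext (Prod.ext uu_zero ?_)
    show vv (uu 0) w.1 = (0, w.1.1, w.1.2)
    rw [uu_zero]
    simp [vv, kk]
  · intro w t
    constructor
    · rintro rfl
      exact congrArg Prod.fst uu_zero
    · intro h
      have h1 : (uu t).1 = 1 := h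
      have h2 := one_add_re t
      rw [h1] at h2
      have h3 : (1 + nn t) * (1 + nn t)⁻¹ = 1 := mul_inv_cancel₀ (nn_ne t)
      simp only [Complex.one_re] at h2
      have h4 : (1 + nn t)⁻¹ = 1 := by linarith
      rw [h4] at h3
      exact eq_zero_of_nn (by linarith)
  · intro w w' t
    rfl

end

end Pool.Agent.Lib.MP_89fcdb_gt.H41
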